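import Mathlib

/-!
# Chains: affine images of an affinely rigid set in prime fields
-/

set_option autoImplicit false

namespace Pool.Agent.H29Z.AG

open Finset

/-- a rapidly increasing sequence -/
def tt : ℕ → ℕ
  | 0 => 1
  | n + 1 => 3 * tt n ^ 2 + 3

theorem tt_pos (n : ℕ) : 0 < tt n := by cases n <;> simp [tt]

theorem tt_mono : StrictMono tt := strictMono_nat_of_lt_succ fun n => by
  have := tt_pos n
  rw [tt]; nlinarith

theorem tt_big {i m : ℕ} (h : i < m + 1) : (0 : ℤ) < tt i ∧ (tt i : ℤ) ≤ tt m := by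
  refine ⟨by exact_mod_cast tt_pos i, ?_⟩
  exact_mod_cast tt_mono.monotone (by omega : i ≤ m)

theorem tt_ne {i k : ℕ} (h : i ≠ k) : (tt i : ℤ) ≠ tt k := by
  intro h'
  exact h (tt_mono.injective (by exact_mod_cast h'))

/-- the determinant -/
def dt (x1 x2 x3 y1 y2 y3 : ℤ) : ℤ := x1 * (y2 - y3) + x2 * (y3 - y1) + x3 * (y1 - y2)

theorem caseA {s x2 x3 y1 y2 y3 : ℤ} (hx2 : 0 < x2 ∧ x2 ≤ s) (hx3 : 0 < x3 ∧ x3 ≤ s)
    (hy1 : 0 < y1 ∧ y1 ≤ s) (hy2 : 0 < y2 ∧ y2 ≤ s) (hy3 : 0 < y3 ∧ y3 ≤ s) (hne : y2 ≠ y3) :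
    dt (3 * s ^ 2 + 3) x2 x3 y1 y2 y3 ≠ 0 := by
  unfold dt
  intro h
  have a1 : x2 * y3 ≤ s * s := mul_le_mul hx2.2 hy3.2 hy3.1.le (by linarith [hx2.1, hx2.2])
  have a2 : x2 * y1 ≤ s * s := mul_le_mul hx2.2 hy1.2 hy1.1.le (by linarith [hx2.1, hx2.2])
  have a3 : x3 * y1 ≤ s * s := mul_le_mul hx3.2 hy1.2 hy1.1.le (by linarith [hx2.1, hx2.2])
  have a4 : x3 * y2 ≤ s * s := mul_le_mul hx3.2 hy2.2 hy2.1.le (by linarith [hx2.1, hx2.2])
  have b1 := mul_pos hx2.1 hy3.1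
  have b2 := mul_pos hx2.1 hy1.1
  have b3 := mul_pos hx3.1 hy1.1
  have b4 := mul_pos hx3.1 hy2.1
  rcases lt_or_gt_of_ne hne with h1 | h1
  · have : (3 * s ^ 2 + 3) * (y2 - y3) ≤ (3 * s ^ 2 + 3) * (-1) :=
      mul_le_mul_of_nonneg_left (by omega) (by positivity)
    nlinarith
  · have : (3 * s ^ 2 + 3) * 1 ≤ (3 * s ^ 2 + 3) * (y2 - y3) :=
      mul_le_mul_of_nonneg_left (by omega) (by positivity)
    nlinarith

theorem caseB {s x2 x3 y2 y3 : ℤ} (hx2 : 0 < x2 ∧ x2 ≤ s) (hx3 : 0 < x3 ∧ x3 ≤ s)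
    (hy2 : 0 < y2 ∧ y2 ≤ s) (hy3 : 0 < y3 ∧ y3 ≤ s) (hne : y2 ≠ y3)
    (h : dt (3 * s ^ 2 + 3) x2 x3 (3 * s ^ 2 + 3) y2 y3 = 0) : x2 = y2 ∧ x3 = y3 := by
  unfold dt at h
  have a1 : x2 * y3 ≤ s * s := mul_le_mul hx2.2 hy3.2 hy3.1.le (by linarith [hx2.1, hx2.2])
  have a4 : x3 * y2 ≤ s * s := mul_le_mul hx3.2 hy2.2 hy2.1.le (by linarith [hx2.1, hx2.2])
  have b1 := mul_pos hx2.1 hy3.1
  have b4 := mul_pos hx3.1 hy2.1
  have h0 : y2 - y3 - x2 + x3 = 0 := by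
    rcases lt_trichotomy (y2 - y3 - x2 + x3) 0 with h1 | h1 | h1
    · have : (3 * s ^ 2 + 3) * (y2 - y3 - x2 + x3) ≤ (3 * s ^ 2 + 3) * (-1) :=
        mul_le_mul_of_nonneg_left (by omega) (by positivity)
      nlinarith
    · exact h1
    · have : (3 * s ^ 2 + 3) * 1 ≤ (3 * s ^ 2 + 3) * (y2 - y3 - x2 + x3) :=
        mul_le_mul_of_nonneg_left (by omega) (by positivity)
      nlinarith
  have h2 : (x2 - y2) * (y3 - y2) = 0 := by
    have : x3 = x2 - y2 + y3 := by linarith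
    subst this
    linear_combination h
  rcases mul_eq_zero.mp h2 with h3 | h3
  · constructor <;> linarith
  · exact absurd (by linarith) hne

theorem caseC {s x2 x3 y1 y3 : ℤ} (hx2 : 0 < x2 ∧ x2 ≤ s) (hx3 : 0 < x3 ∧ x3 ≤ s)
    (hy1 : 0 < y1 ∧ y1 ≤ s) (hy3 : 0 < y3 ∧ y3 ≤ s) :
    dt (3 * s ^ 2 + 3) x2 x3 y1 (3 * s ^ 2 + 3) y3 ≠ 0 := by
  unfold dt
  intro h
  have hs : 0 < s := by linarith [hx2.1, hx2.2]
  have h1 : (3 * s ^ 2 + 3 - x3) * (3 * s ^ 2 + 3 - y3) = (x2 - x3) * (y1 - y3) := by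
    linear_combination h
  have h2 : s + 1 ≤ 3 * s ^ 2 + 3 - x3 := by nlinarith [hx3.2]
  have h3 : s + 1 ≤ 3 * s ^ 2 + 3 - y3 := by nlinarith [hy3.2]
  have h4 : (s + 1) * (s + 1) ≤ (3 * s ^ 2 + 3 - x3) * (3 * s ^ 2 + 3 - y3) :=
    mul_le_mul h2 h3 (by linarith) (by linarith)
  have h5 : (x2 - x3) * (y1 - y3) ≤ s * s := by
    have e1 : |x2 - x3| ≤ s := abs_le.mpr ⟨by linarith [hx2.1, hx3.2], by linarith [hx2.2, hx3.1]⟩
    have e2 : |y1 - y3| ≤ s := abs_le.mpr ⟨by linarith [hy1.1, hy3.2], by linarith [hy1.2, hy3.1]⟩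
    calc (x2 - x3) * (y1 - y3) ≤ |(x2 - x3) * (y1 - y3)| := le_abs_self _
      _ = |x2 - x3| * |y1 - y3| := abs_mul _ _
      _ ≤ s * s := mul_le_mul e1 e2 (abs_nonneg _) hs.le
  nlinarith

theorem rigid_top {i2 i3 k1 k2 k3 m : ℕ} (hi2 : i2 < m + 1) (hi3 : i3 < m + 1)
    (hk1 : k1 ≤ m + 1) (hk2 : k2 ≤ m + 1) (hk3 : k3 ≤ m + 1)
    (h12 : k1 ≠ k2) (h13 : k1 ≠ k3) (h23 : k2 ≠ k3)
    (h : dt (tt (m + 1)) (tt i2) (tt i3) (tt k1) (tt k2) (tt k3) = 0) :
    m + 1 = k1 ∧ i2 = k2 ∧ i3 = k3 := by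
  have e : ((tt (m + 1) : ℕ) : ℤ) = 3 * (tt m : ℤ) ^ 2 + 3 := by rw [tt]; push_cast; ring
  by_cases c1 : k1 = m + 1
  · subst c1
    rw [e] at h
    obtain ⟨h1, h2⟩ := caseB (tt_big hi2) (tt_big hi3) (tt_big (by omega)) (tt_big (by omega))
      (tt_ne h23) h
    exact ⟨rfl, tt_mono.injective (by exact_mod_cast h1), tt_mono.injective (by exact_mod_cast h2)⟩
  by_cases c2 : k2 = m + 1
  · subst c2
    rw [e] at h
    exact absurd h (caseC (tt_big hi2) (tt_big hi3) (tt_big (by omega)) (tt_big (by omega)))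
  by_cases c3 : k3 = m + 1
  · subst c3
    rw [e] at h
    refine absurd ?_ (caseC (y3 := tt k2) (tt_big hi3) (tt_big hi2) (tt_big (i := k1) (by omega))
      (tt_big (by omega)))
    unfold dt at h ⊢
    linear_combination -h
  rw [e] at h
  exact absurd h (caseA (tt_big hi2) (tt_big hi3) (tt_big (by omega)) (tt_big (by omega))
    (tt_big (by omega)) (tt_ne h23))

theorem rigid_half {i1 i2 i3 k1 k2 k3 m : ℕ} (hm : i1 = m + 1 ∨ i2 = m + 1 ∨ i3 = m + 1)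
    (hi1 : i1 ≤ m + 1) (hi2 : i2 ≤ m + 1) (hi3 : i3 ≤ m + 1)
    (hk1 : k1 ≤ m + 1) (hk2 : k2 ≤ m + 1) (hk3 : k3 ≤ m + 1)
    (g12 : i1 ≠ i2) (g13 : i1 ≠ i3) (g23 : i2 ≠ i3)
    (h12 : k1 ≠ k2) (h13 : k1 ≠ k3) (h23 : k2 ≠ k3)
    (h : dt (tt i1) (tt i2) (tt i3) (tt k1) (tt k2) (tt k3) = 0) :
    i1 = k1 ∧ i2 = k2 ∧ i3 = k3 := by
  rcases hm with rfl | rfl | rfl
  · exact rigid_top (by omega) (by omega) hk1 hk2 hk3 h12 h13 h23 h
  · have := rigid_top (i2 := i1) (i3 := i3) (k1 := k2) (k2 := k1) (k3 := k3) (m := m) (by omega)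
      (by omega) hk2 hk1 hk3 h12.symm h23 h13 (by unfold dt at h ⊢; linear_combination -h)
    omega
  · have := rigid_top (i2 := i1) (i3 := i2) (k1 := k3) (k2 := k1) (k3 := k2) (m := m) (by omega)
      (by omega) hk3 hk1 hk2 h13.symm h23.symm h12 (by unfold dt at h ⊢; linear_combination h)
    omega

theorem rigid {i1 i2 i3 k1 k2 k3 : ℕ} (g12 : i1 ≠ i2) (g13 : i1 ≠ i3) (g23 : i2 ≠ i3)
    (h12 : k1 ≠ k2) (h13 : k1 ≠ k3) (h23 : k2 ≠ k3)
    (h : dt (tt i1) (tt i2) (tt i3) (tt k1) (tt k2) (tt k3) = 0) :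
    i1 = k1 ∧ i2 = k2 ∧ i3 = k3 := by
  obtain ⟨m, hm⟩ : ∃ m, max (max (max i1 i2) i3) (max (max k1 k2) k3) = m + 1 :=
    ⟨max (max (max i1 i2) i3) (max (max k1 k2) k3) - 1, by omega⟩
  by_cases c : i1 = m + 1 ∨ i2 = m + 1 ∨ i3 = m + 1
  · exact rigid_half c (by omega) (by omega) (by omega) (by omega) (by omega) (by omega)
      g12 g13 g23 h12 h13 h23 h
  · have := rigid_half (i1 := k1) (i2 := k2) (i3 := k3) (k1 := i1) (k2 := i2) (k3 := i3) (m := m)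
      (by omega) (by omega) (by omega) (by omega) (by omega) (by omega) (by omega)
      h12 h13 h23 g12 g13 g23 (by unfold dt at h ⊢; linear_combination -h)
    omega

/-- index of a position -/
def ix (q : ℕ × Bool) : ℕ := 2 * q.1 + (if q.2 then 1 else 0)

theorem ix_inj : Function.Injective ix := by
  rintro ⟨a, b⟩ ⟨c, d⟩ h
  unfold ix at h
  cases b <;> cases d <;> simp at h ⊢ <;> omega

theorem ix_lt {q : ℕ × Bool} {J : ℕ} (h : q.1 < J) : ix q < 2 * J + 1 := by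
  unfold ix; split_ifs <;> omega

/-- the prime for block `J` -/
noncomputable def pr (J : ℕ) : ℕ := (Nat.exists_infinite_primes (6 * tt (2 * J) ^ 2 + 1)).choose

theorem pr_big (J : ℕ) : 6 * tt (2 * J) ^ 2 + 1 ≤ pr J :=
  (Nat.exists_infinite_primes (6 * tt (2 * J) ^ 2 + 1)).choose_spec.1

instance pr_prime (J : ℕ) : Fact (pr J).Prime :=
  ⟨(Nat.exists_infinite_primes (6 * tt (2 * J) ^ 2 + 1)).choose_spec.2⟩

theorem lift_zero {J : ℕ} {z : ℤ} (h : (z : ZMod (pr J)) = 0) (hb : |z| ≤ 6 * (tt (2 * J) : ℤ) ^ 2) :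
    z = 0 := by
  rw [ZMod.intCast_zmod_eq_zero_iff_dvd] at h
  refine Int.eq_zero_of_abs_lt_dvd h ?_
  have : ((6 * tt (2 * J) ^ 2 + 1 : ℕ) : ℤ) ≤ pr J := by exact_mod_cast pr_big J
  push_cast at this
  linarith

/-- the point of the rigid set at a position -/
noncomputable def pt (J : ℕ) (q : ℕ × Bool) : ZMod (pr J) := (tt (ix q) : ℕ)

theorem pt_inj {J : ℕ} {q q' : ℕ × Bool} (h : q.1 < J) (h' : q'.1 < J) (e : pt J q = pt J q') :
    q = q' := by
  have b1 := tt_big (ix_lt h)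
  have b2 := tt_big (ix_lt h')
  have h1 : ((tt (ix q) : ℤ) - tt (ix q')) = 0 := by
    refine lift_zero (J := J) ?_ ?_
    · push_cast
      exact sub_eq_zero.mpr e
    · rw [abs_le]
      constructor <;> nlinarith [b1.1, b1.2, b2.1, b2.2]
  by_contra hne
  exact tt_ne (fun h2 => hne (ix_inj h2)) (sub_eq_zero.mp h1)

theorem three {J : ℕ} {a b a' b' : ZMod (pr J)} (ha : a ≠ 0) (ha' : a' ≠ 0)
    {q1 q2 q3 r1 r2 r3 : ℕ × Bool} (hq1 : q1.1 < J) (hq2 : q2.1 < J) (hq3 : q3.1 < J)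
    (hr1 : r1.1 < J) (hr2 : r2.1 < J) (hr3 : r3.1 < J)
    (e1 : a * pt J q1 + b = a' * pt J r1 + b') (e2 : a * pt J q2 + b = a' * pt J r2 + b')
    (e3 : a * pt J q3 + b = a' * pt J r3 + b')
    (n12 : (q1, r1) ≠ (q2, r2)) (n13 : (q1, r1) ≠ (q3, r3)) (n23 : (q2, r2) ≠ (q3, r3)) :
    a = a' ∧ b = b' := by
  have key : ∀ {q q' r r' : ℕ × Bool}, q.1 < J → q'.1 < J → r.1 < J → r'.1 < J →
      a * pt J q + b = a' * pt J r + b' → a * pt J q' + b = a' * pt J r' + b' →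
      (q, r) ≠ (q', r') → q ≠ q' ∧ r ≠ r' := by
    intro q q' r r' h1 h2 h3 h4 f1 f2 hne
    constructor
    · rintro rfl
      have : a' * pt J r = a' * pt J r' := by linear_combination f2 - f1
      exact hne (by rw [pt_inj h3 h4 (mul_left_cancel₀ ha' this)])
    · rintro rfl
      have : a * pt J q = a * pt J q' := by linear_combination f1 - f2
      exact hne (by rw [pt_inj h1 h2 (mul_left_cancel₀ ha this)])
  obtain ⟨g12, h12⟩ := key hq1 hq2 hr1 hr2 e1 e2 n12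
  obtain ⟨g13, h13⟩ := key hq1 hq3 hr1 hr3 e1 e3 n13
  obtain ⟨g23, h23⟩ := key hq2 hq3 hr2 hr3 e2 e3 n23
  have hd : dt (tt (ix q1)) (tt (ix q2)) (tt (ix q3)) (tt (ix r1)) (tt (ix r2)) (tt (ix r3)) = 0 := by
    refine lift_zero (J := J) ?_ ?_
    · unfold dt
      push_cast
      refine mul_left_cancel₀ ha ?_
      unfold pt at e1 e2 e3
      linear_combination ((tt (ix r2) : ZMod (pr J)) - tt (ix r3)) * e1 +
        ((tt (ix r3) : ZMod (pr J)) - tt (ix r1)) * e2 + ((tt (ix r1) : ZMod (pr J)) - tt (ix r2)) * e3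
    · have b1 := tt_big (ix_lt hq1)
      have b2 := tt_big (ix_lt hq2)
      have b3 := tt_big (ix_lt hq3)
      have c1 := tt_big (ix_lt hr1)
      have c2 := tt_big (ix_lt hr2)
      have c3 := tt_big (ix_lt hr3)
      have pb : ∀ {x y : ℤ}, (0 < x ∧ x ≤ tt (2 * J)) → (0 < y ∧ y ≤ tt (2 * J)) →
          0 < x * y ∧ x * y ≤ (tt (2 * J) : ℤ) ^ 2 := fun hx hy =>
        ⟨mul_pos hx.1 hy.1, by
          rw [sq]; exact mul_le_mul hx.2 hy.2 hy.1.le (by linarith [hx.1, hx.2])⟩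
      unfold dt
      rw [abs_le]
      constructor <;>
        nlinarith [pb b1 c2, pb b1 c3, pb b2 c3, pb b2 c1, pb b3 c1, pb b3 c2]
  obtain ⟨f1, f2, -⟩ := rigid (ix_inj.ne g12) (ix_inj.ne g13) (ix_inj.ne g23) (ix_inj.ne h12)
    (ix_inj.ne h13) (ix_inj.ne h23) hd
  rw [← ix_inj f1] at e1
  rw [← ix_inj f2] at e2
  have h5 : (a - a') * (pt J q1 - pt J q2) = 0 := by linear_combination e1 - e2
  rcases mul_eq_zero.mp h5 with h6 | h6
  · have h7 : a = a' := sub_eq_zero.mp h6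
    subst h7
    exact ⟨rfl, by linear_combination e1⟩
  · exact absurd (pt_inj hq1 hq2 (sub_eq_zero.mp h6)) g12

/-- all points -/
abbrev Pts : Type := Σ J : ℕ, ZMod (pr J)

/-- all chains -/
abbrev Chains : Type := Σ J : ℕ, {a : ZMod (pr J) // a ≠ 0} × ZMod (pr J)

instance : Infinite Pts := Infinite.of_injective (fun J : ℕ => (⟨J, 0⟩ : Pts))
  (fun _ _ h => congrArg Sigma.fst h)

/-- enumeration of the points -/
noncomputable def enu : Pts ≃ ℕ := Classical.choice nonempty_equiv_of_countable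

/-- the point of a chain at a position -/
noncomputable def ch (γ : Chains) (q : ℕ × Bool) : ℕ :=
  enu ⟨γ.1, γ.2.1.1 * pt γ.1 q + γ.2.2⟩

theorem ch_inj (γ : Chains) {q q' : ℕ × Bool} (h : q.1 < γ.1) (h' : q'.1 < γ.1)
    (e : ch γ q = ch γ q') : q = q' := by
  have h1 := enu.injective e
  have h2 : γ.2.1.1 * pt γ.1 q + γ.2.2 = γ.2.1.1 * pt γ.1 q' + γ.2.2 := by
    simpa using h1
  exact pt_inj h h' (mul_left_cancel₀ γ.2.1.2 (add_right_cancel h2))

theorem ch_overlap (γ γ' : Chains) (hne : γ ≠ γ') (s : Finset ((ℕ × Bool) × (ℕ × Bool)))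
    (hs : ∀ x ∈ s, x.1.1 < γ.1 ∧ x.2.1 < γ'.1 ∧ ch γ x.1 = ch γ' x.2) : s.card ≤ 2 := by
  by_contra h
  obtain ⟨x, hx, y, hy, z, hz, hxy, hxz, hyz⟩ := Finset.two_lt_card.mp (not_le.mp h)
  obtain ⟨J, ⟨a, ha⟩, b⟩ := γ
  obtain ⟨J', ⟨a', ha'⟩, b'⟩ := γ'
  have hJ : J = J' := congrArg Sigma.fst (enu.injective (hs x hx).2.2)
  subst hJ
  have f : ∀ w ∈ s, a * pt J w.1 + b = a' * pt J w.2 + b' := fun w hw => by
    simpa using enu.injective (hs w hw).2.2
  obtain ⟨h1, h2⟩ := three ha ha' (hs x hx).1 (hs y hy).1 (hs z hz).1 (hs x hx).2.1 (hs y hy).2.1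
    (hs z hz).2.1 (f x hx) (f y hy) (f z hz) hxy hxz hyz
  subst h1 h2
  exact hne rfl

theorem exists_cut (J : ℕ) (π : Equiv.Perm ℕ) (h : ℕ) (hh : h ≤ pr J) :
    ∃ n, (univ.filter fun v : ZMod (pr J) => π.symm (enu ⟨J, v⟩) < n).card = h := by
  let f : ℕ → ℕ := fun n => (univ.filter fun v : ZMod (pr J) => π.symm (enu ⟨J, v⟩) < n).card
  have hinj : Function.Injective fun v : ZMod (pr J) => π.symm (enu ⟨J, v⟩) := by
    intro v w e
    simpa using enu.injective (π.symm.injective e)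
  have hstep : ∀ n, f (n + 1) ≤ f n + 1 := by
    intro n
    have h1 : (univ.filter fun v : ZMod (pr J) => π.symm (enu ⟨J, v⟩) < n + 1) ⊆
        (univ.filter fun v : ZMod (pr J) => π.symm (enu ⟨J, v⟩) < n) ∪
          (univ.filter fun v : ZMod (pr J) => π.symm (enu ⟨J, v⟩) = n) := by
      intro v hv
      simp only [mem_filter, mem_univ, true_and, mem_union] at hv ⊢
      omega
    have h2 : (univ.filter fun v : ZMod (pr J) => π.symm (enu ⟨J, v⟩) = n).card ≤ 1 := by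
      rw [card_le_one]
      intro v hv w hw
      exact hinj ((mem_filter.mp hv).2.trans (mem_filter.mp hw).2.symm)
    have h3 := (card_le_card h1).trans (card_union_le _ _)
    simp only [f]
    omega
  have hex : ∃ n, h ≤ f n := by
    refine ⟨univ.sup (fun v : ZMod (pr J) => π.symm (enu ⟨J, v⟩)) + 1, ?_⟩
    simp only [f]
    rw [filter_true_of_mem, card_univ, ZMod.card]
    · exact hh
    · intro v _
      exact Nat.lt_succ_of_le (le_sup (f := fun v : ZMod (pr J) => π.symm (enu ⟨J, v⟩)) (mem_univ v))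
  refine ⟨Nat.find hex, le_antisymm ?_ (Nat.find_spec hex)⟩
  rcases hn : Nat.find hex with _ | n
  · simp
  · have h1 := Nat.find_min hex (m := n) (by omega)
    have h2 := hstep n
    simp only [f] at h1 h2
    omega

theorem exists_split (π : Equiv.Perm ℕ) (R : ℝ) :
    ∃ (n : ℕ) (γ : Chains), R ≤ ∑ j ∈ (range γ.1).filter
      (fun j => π.symm (ch γ (j, true)) < n ∧ ¬ π.symm (ch γ (j, false)) < n), 1 / ((j : ℝ) + 1) := by
  obtain ⟨J, hJ⟩ := (Real.tendsto_sum_range_one_div_nat_succ_atTop.eventually_ge_atTop (8 * R)).exists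
  obtain ⟨n, hn⟩ := exists_cut J π (pr J / 2) (Nat.div_le_self _ _)
  set A := univ.filter fun v : ZMod (pr J) => π.symm (enu ⟨J, v⟩) < n with hA
  have hp2 : 2 ≤ pr J := (pr_prime J).out.two_le
  let G := {a : ZMod (pr J) // a ≠ 0} × ZMod (pr J)
  let S : G → ℝ := fun g => ∑ j ∈ (range J).filter
      (fun j => π.symm (ch ⟨J, g⟩ (j, true)) < n ∧ ¬ π.symm (ch ⟨J, g⟩ (j, false)) < n),
        1 / ((j : ℝ) + 1)
  have hG : (Fintype.card G : ℝ) ≤ (pr J : ℝ) ^ 2 := by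
    have h1 : Fintype.card G ≤ pr J * pr J := by
      simp only [G, Fintype.card_prod, ZMod.card]
      refine Nat.mul_le_mul_right _ ?_
      exact (Fintype.card_subtype_le _).trans (ZMod.card _).le
    rw [sq]; exact_mod_cast h1
  have hcount : ∀ j, j < J → (Fintype.card G : ℝ) / 8 ≤ ((univ.filter fun g : G =>
      π.symm (ch ⟨J, g⟩ (j, true)) < n ∧ ¬ π.symm (ch ⟨J, g⟩ (j, false)) < n).card : ℝ) := by
    intro j hj
    have hne : pt J (j, true) - pt J (j, false) ≠ 0 := by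
      intro h
      have := pt_inj (q := (j, true)) (q' := (j, false)) hj hj (sub_eq_zero.mp h)
      simp at this
    have h1 : (A ×ˢ Aᶜ).card ≤ (univ.filter fun g : G =>
        π.symm (ch ⟨J, g⟩ (j, true)) < n ∧ ¬ π.symm (ch ⟨J, g⟩ (j, false)) < n).card := by
      refine card_le_card_of_surjOn
        (fun g : G => (g.1.1 * pt J (j, true) + g.2, g.1.1 * pt J (j, false) + g.2)) ?_
      rintro ⟨x, y⟩ hxy
      obtain ⟨hx, hy⟩ := mem_product.mp (mem_coe.mp hxy)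
      have hxy' : x - y ≠ 0 := by
        intro h
        rw [sub_eq_zero.mp h] at hx
        exact (mem_compl.mp hy) hx
      have e1 : (x - y) / (pt J (j, true) - pt J (j, false)) * pt J (j, true) +
          (x - (x - y) / (pt J (j, true) - pt J (j, false)) * pt J (j, true)) = x := by ring
      have e2 : (x - y) / (pt J (j, true) - pt J (j, false)) * pt J (j, false) +
          (x - (x - y) / (pt J (j, true) - pt J (j, false)) * pt J (j, true)) = y := by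
        field_simp
        ring
      refine ⟨(⟨(x - y) / (pt J (j, true) - pt J (j, false)), div_ne_zero hxy' hne⟩,
        x - (x - y) / (pt J (j, true) - pt J (j, false)) * pt J (j, true)), ?_, ?_⟩
      · simp only [coe_filter, mem_univ, true_and, Set.mem_ofPred_eq, ch, e1, e2]
        exact ⟨(mem_filter.mp hx).2, fun h => (mem_compl.mp hy) (mem_filter.mpr ⟨mem_univ _, h⟩)⟩
      · simp only [e1, e2]
    rw [card_product, card_compl, ZMod.card, hn] at h1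
    have h2 : pr J * pr J ≤ 8 * (pr J / 2 * (pr J - pr J / 2)) := by
      have a1 : pr J ≤ 4 * (pr J / 2) := by omega
      have a2 : pr J ≤ 2 * (pr J - pr J / 2) := by omega
      calc pr J * pr J ≤ (4 * (pr J / 2)) * (2 * (pr J - pr J / 2)) := Nat.mul_le_mul a1 a2
        _ = _ := by ring
    have h3 : ((pr J * pr J : ℕ) : ℝ) ≤ ((8 * (univ.filter fun g : G =>
        π.symm (ch ⟨J, g⟩ (j, true)) < n ∧ ¬ π.symm (ch ⟨J, g⟩ (j, false)) < n).card : ℕ) : ℝ) := by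
      exact_mod_cast h2.trans (Nat.mul_le_mul_left 8 h1)
    push_cast at h3
    nlinarith
  have hsum : ∑ _g : G, R ≤ ∑ g : G, S g := by
    simp only [S, sum_filter]
    rw [sum_comm, sum_const, card_univ, nsmul_eq_mul]
    have h1 : ∀ j ∈ range J, (Fintype.card G : ℝ) / 8 * (1 / ((j : ℝ) + 1)) ≤ ∑ g : G,
        if π.symm (ch ⟨J, g⟩ (j, true)) < n ∧ ¬ π.symm (ch ⟨J, g⟩ (j, false)) < n then
          1 / ((j : ℝ) + 1) else 0 := by
      intro j hj
      rw [← sum_filter, sum_const, nsmul_eq_mul]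
      exact mul_le_mul_of_nonneg_right (hcount j (mem_range.mp hj)) (by positivity)
    refine le_trans ?_ (sum_le_sum h1)
    rw [← mul_sum]
    have h2 : (0 : ℝ) ≤ Fintype.card G := by positivity
    nlinarith
  have : Nonempty G := ⟨(⟨1, one_ne_zero⟩, 0)⟩
  obtain ⟨g, -, hg⟩ := exists_le_of_sum_le univ_nonempty hsum
  exact ⟨n, ⟨J, g⟩, hg⟩

end Pool.Agent.H29Z.AG
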