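import Pool.Agent.H29Z.AG.Comb

/-!
# The norming functionals and the two key estimates
-/

set_option autoImplicit false

namespace Pool.Agent.H29Z.AG

open Finset

/-- the weights -/
noncomputable def uu (j : ℕ) : ℝ := 1 / Real.sqrt ((j : ℝ) + 1)

theorem uu_pos (j : ℕ) : 0 < uu j := by unfold uu; positivity

theorem uu_sq (j : ℕ) : uu j * uu j = 1 / ((j : ℝ) + 1) := by
  unfold uu
  rw [div_mul_div_comm, Real.mul_self_sqrt (by positivity), one_mul]

theorem uu_le_one (j : ℕ) : uu j ≤ 1 := by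
  unfold uu
  rw [div_le_one (by positivity)]
  exact Real.one_le_sqrt.mpr (by linarith [Nat.cast_nonneg (α := ℝ) j])

theorem uu_le {m j : ℕ} (h : m ≤ j) : uu j * Real.sqrt m ≤ 1 := by
  unfold uu
  rw [div_mul_eq_mul_div, one_mul, div_le_one (by positivity)]
  apply Real.sqrt_le_sqrt
  have : (m : ℝ) ≤ j := by exact_mod_cast h
  linarith

theorem sum_uu (m : ℕ) : ∑ j ∈ range m, uu j ≤ 2 * Real.sqrt m := by
  induction m with
  | zero => simp
  | succ m ih =>
    rw [sum_range_succ]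
    have h1 : uu m ≤ 2 * Real.sqrt ((m : ℝ) + 1) - 2 * Real.sqrt m := by
      unfold uu
      have a := Real.mul_self_sqrt (show (0 : ℝ) ≤ (m : ℝ) + 1 by positivity)
      have b := Real.mul_self_sqrt (show (0 : ℝ) ≤ (m : ℝ) by positivity)
      rw [div_le_iff₀ (by positivity)]
      nlinarith [sq_nonneg (Real.sqrt ((m : ℝ) + 1) - Real.sqrt m)]
    push_cast
    linarith

/-- index set of the norming functionals -/
abbrev Lam : Type := {p : Finset ℕ × (ℕ → ℝ) // ∑ i ∈ p.1, p.2 i ^ 2 ≤ 1} ⊕ (Chains × ℕ)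

/-- positions of a truncated chain -/
def pos (γ : Chains) (k : ℕ) : Finset (ℕ × Bool) := range (min k γ.1) ×ˢ univ

theorem mem_pos {γ : Chains} {k : ℕ} {q : ℕ × Bool} : q ∈ pos γ k ↔ q.1 < k ∧ q.1 < γ.1 := by
  simp [pos]

/-- the functionals -/
noncomputable def ev : Lam → (ℕ → ℝ) → ℝ
  | Sum.inl p, a => ∑ i ∈ p.1.1, p.1.2 i * a i
  | Sum.inr c, a => ∑ q ∈ pos c.1 c.2, uu q.1 * a (ch c.1 q)

/-- a bound for the norm -/
def Bd (a : ℕ → ℝ) (M : ℝ) : Prop := ∀ l, |ev l a| ≤ M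

theorem Bd.sq_le {a : ℕ → ℝ} {M : ℝ} (h : Bd a M) (s : Finset ℕ) : ∑ i ∈ s, a i ^ 2 ≤ M ^ 2 := by
  have h0 : 0 ≤ ∑ i ∈ s, a i ^ 2 := sum_nonneg fun _ _ => sq_nonneg _
  rcases h0.eq_or_lt with h1 | h1
  · rw [← h1]; exact sq_nonneg _
  set N := Real.sqrt (∑ i ∈ s, a i ^ 2) with hN
  have hN0 : 0 < N := Real.sqrt_pos.mpr h1
  have hN2 : N ^ 2 = ∑ i ∈ s, a i ^ 2 := Real.sq_sqrt h0
  have h2 := h (Sum.inl ⟨(s, fun i => a i / N), by
    simp only [div_pow]
    rw [← sum_div, hN2, div_self h1.ne']⟩)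
  simp only [ev] at h2
  have h3 : ∑ i ∈ s, a i / N * a i = N := by
    have : ∀ i ∈ s, a i / N * a i = a i ^ 2 / N := fun i _ => by ring
    rw [sum_congr rfl this, ← sum_div, ← hN2]
    field_simp
  rw [h3, abs_of_pos hN0] at h2
  rw [← hN2]
  exact pow_le_pow_left₀ hN0.le h2 2

theorem bd_inl {a : ℕ → ℝ} {K : ℝ} (hK : 0 ≤ K)
    (p : {p : Finset ℕ × (ℕ → ℝ) // ∑ i ∈ p.1, p.2 i ^ 2 ≤ 1})
    (h : ∑ i ∈ p.1.1, a i ^ 2 ≤ K ^ 2) : |ev (Sum.inl p) a| ≤ K := by
  simp only [ev]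
  refine abs_le_of_sq_le_sq ?_ hK
  refine (sum_mul_sq_le_sq_mul_sq _ _ _).trans ?_
  have h0 : 0 ≤ ∑ i ∈ p.1.1, a i ^ 2 := sum_nonneg fun _ _ => sq_nonneg _
  nlinarith [p.2]

theorem sum_ch_le (γ : Chains) (Q : Finset (ℕ × Bool)) (hQ : ∀ q ∈ Q, q.1 < γ.1) (f : ℕ → ℝ)
    (hf : ∀ i, 0 ≤ f i) (D : Finset ℕ) (hD : ∀ i, i ∉ D → f i = 0) :
    ∑ q ∈ Q, f (ch γ q) ≤ ∑ i ∈ D, f i := by
  rw [← sum_image (s := Q) (g := ch γ) (f := f)
    (fun q hq q' hq' e => ch_inj γ (hQ q hq) (hQ q' hq') e)]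
  rw [← sum_filter_of_ne (p := fun i => i ∈ D) (fun i _ h => by_contra fun h' => h (hD i h'))]
  exact sum_le_sum_of_subset_of_nonneg (fun i hi => (mem_filter.mp hi).2) fun i _ _ => hf i

theorem head_le (γ : Chains) (k m : ℕ) (hk : k ≤ m) (z : ℕ → ℝ) (t : ℝ) (hz : ∀ i, |z i| ≤ t) :
    |ev (Sum.inr (γ, k)) z| ≤ 4 * (t * Real.sqrt m) := by
  have ht : 0 ≤ t := (abs_nonneg _).trans (hz 0)
  simp only [ev]
  refine (abs_sum_le_sum_abs _ _).trans ?_
  have h1 : ∀ q ∈ pos γ k, |uu q.1 * z (ch γ q)| ≤ uu q.1 * t := fun q _ => by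
    rw [abs_mul, abs_of_pos (uu_pos _)]
    exact mul_le_mul_of_nonneg_left (hz _) (uu_pos _).le
  refine (sum_le_sum h1).trans ?_
  rw [← sum_mul, pos, sum_product]
  simp only [sum_const, card_univ, Fintype.card_bool, nsmul_eq_mul, Nat.cast_ofNat]
  rw [← mul_sum]
  have h2 : ∑ j ∈ range (min k γ.1), uu j ≤ ∑ j ∈ range m, uu j :=
    sum_le_sum_of_subset_of_nonneg (range_subset_range.mpr (by omega)) fun j _ _ => (uu_pos j).le
  have h3 := sum_uu m
  nlinarith

theorem greedy_bd (a : ℕ → ℝ) (A B : Finset ℕ) (hA : ∀ i ∈ A, ∀ j, j ∉ A → |a j| ≤ |a i|)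
    (hB : B.card ≤ A.card) (M : ℝ) (h : Bd (fun i => if i ∈ B then 0 else a i) M) :
    Bd (fun i => if i ∈ A then 0 else a i) (8 * M) := by
  have hM : 0 ≤ M := (abs_nonneg _).trans (h (Sum.inl ⟨(∅, 0), by simp⟩))
  by_cases hAB : A ⊆ B
  · have : A = B := eq_of_subset_of_card_le hAB hB
    subst this
    intro l
    linarith [h l]
  have hne : (A \ B).Nonempty := sdiff_nonempty.mpr hAB
  obtain ⟨i0, hi0, hmin⟩ := exists_min_image (A \ B) (fun i => |a i|) hne
  set t := |a i0| with ht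
  set m := (A \ B).card with hm
  set y : ℕ → ℝ := fun i => if i ∈ B then 0 else a i with hy
  set z : ℕ → ℝ := fun i => if i ∈ A then 0 else a i with hz
  have ht0 : 0 ≤ t := abs_nonneg _
  have hE : (B \ A).card ≤ m := by
    have h1 := card_sdiff_add_card_inter A B
    have h2 := card_sdiff_add_card_inter B A
    rw [inter_comm] at h2
    omega
  have hE' : ((B \ A).card : ℝ) ≤ m := by exact_mod_cast hE
  have hzt : ∀ i, |z i| ≤ t := by
    intro i
    simp only [hz]
    split_ifs with h1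
    · simpa using ht0
    · exact hA i0 (mem_sdiff.mp hi0).1 i h1
  have hsD := h.sq_le (A \ B)
  have hmt : (m : ℝ) * t ^ 2 ≤ M ^ 2 := by
    refine le_trans ?_ hsD
    rw [← nsmul_eq_mul]
    refine card_nsmul_le_sum _ _ _ fun i hi => ?_
    simp only [hy, if_neg (mem_sdiff.mp hi).2]
    rw [← sq_abs (a i)]
    exact pow_le_pow_left₀ ht0 (hmin i hi) 2
  have hs0 := Real.sqrt_nonneg (m : ℝ)
  have hs2 : Real.sqrt m ^ 2 = m := Real.sq_sqrt (by positivity)
  have htm : t * Real.sqrt m ≤ M := by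
    refine le_of_sq_le_sq ?_ hM
    rw [mul_pow, hs2]; linarith
  rintro (p | ⟨γ, k⟩)
  · refine (bd_inl (K := 2 * M) (by positivity) p ?_).trans (by linarith)
    have h1 : ∀ i ∈ p.1.1, z i ^ 2 ≤ y i ^ 2 + (if i ∈ B \ A then t ^ 2 else 0) := by
      intro i _
      by_cases h2 : i ∈ B \ A
      · rw [if_pos h2, ← sq_abs (z i)]
        have := pow_le_pow_left₀ (abs_nonneg _) (hzt i) 2
        nlinarith [sq_nonneg (y i)]
      · rw [if_neg h2]
        simp only [hz, hy]
        rw [mem_sdiff] at h2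
        by_cases h3 : i ∈ A
        · simp only [h3, if_true]; nlinarith [sq_nonneg (if i ∈ B then 0 else a i)]
        · have h4 : i ∉ B := fun h4 => h2 ⟨h4, h3⟩
          simp [h3, h4]
    refine (sum_le_sum h1).trans ?_
    rw [sum_add_distrib, ← sum_filter, sum_const, nsmul_eq_mul]
    have h2 : ((p.1.1.filter fun i => i ∈ B \ A).card : ℝ) ≤ m := by
      refine le_trans ?_ hE'
      exact_mod_cast card_le_card fun i hi => (mem_filter.mp hi).2
    have h3 := h.sq_le p.1.1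
    nlinarith [mul_le_mul_of_nonneg_right h2 (sq_nonneg t)]
  · by_cases hk : k ≤ m
    · linarith [head_le γ k m hk z t hzt]
    have hsub : pos γ m ⊆ pos γ k := fun q hq => by
      rw [mem_pos] at hq ⊢; omega
    have split : ∀ w : ℕ → ℝ, ev (Sum.inr (γ, k)) w =
        ∑ q ∈ pos γ k \ pos γ m, uu q.1 * w (ch γ q) + ev (Sum.inr (γ, m)) w := fun w => by
      simp only [ev]
      rw [sum_sdiff hsub]
    have h1 := head_le γ m m le_rfl z t hzt
    have h2 := abs_le.mp (h (Sum.inr (γ, k)))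
    have h3 := abs_le.mp (h (Sum.inr (γ, m)))
    rw [split y] at h2
    rw [split z]
    have h4 : ∑ q ∈ pos γ k \ pos γ m, uu q.1 * z (ch γ q) =
        ∑ q ∈ pos γ k \ pos γ m, uu q.1 * y (ch γ q) +
          ∑ q ∈ pos γ k \ pos γ m, uu q.1 * (z (ch γ q) - y (ch γ q)) := by
      rw [← sum_add_distrib]
      exact sum_congr rfl fun q _ => by ring
    have hm0 : 0 < Real.sqrt m := Real.sqrt_pos.mpr (by exact_mod_cast hne.card_pos)
    have h5 : |∑ q ∈ pos γ k \ pos γ m, uu q.1 * (z (ch γ q) - y (ch γ q))| ≤ 2 * M := by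
      refine le_of_mul_le_mul_right ?_ hm0
      refine (mul_le_mul_of_nonneg_right (abs_sum_le_sum_abs _ _) hs0).trans ?_
      rw [sum_mul]
      have e1 : ∀ q ∈ pos γ k \ pos γ m, |uu q.1 * (z (ch γ q) - y (ch γ q))| * Real.sqrt m ≤
          |z (ch γ q) - y (ch γ q)| := by
        intro q hq
        have e2 : m ≤ q.1 := by
          simp only [mem_sdiff, mem_pos] at hq
          omega
        rw [abs_mul, abs_of_pos (uu_pos _), mul_right_comm]
        exact mul_le_of_le_one_left (abs_nonneg _) (uu_le e2)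
      refine (sum_le_sum e1).trans ?_
      refine (sum_ch_le γ _ (fun q hq => (mem_pos.mp (mem_sdiff.mp hq).1).2)
        (fun i => |z i - y i|) (fun _ => abs_nonneg _) (A \ B ∪ B \ A) ?_).trans ?_
      · intro i hi
        simp only [mem_union, mem_sdiff, not_or, not_and, not_not] at hi
        simp only [hz, hy]
        by_cases h6 : i ∈ A
        · simp [h6, hi.1 h6]
        · have h7 : i ∉ B := fun h7 => h6 (hi.2 h7)
          simp [h6, h7]
      · rw [sum_union (disjoint_sdiff_sdiff)]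
        have e3 : ∑ i ∈ A \ B, |z i - y i| ≤ Real.sqrt m * M := by
          have e4 : ∀ i ∈ A \ B, |z i - y i| = 1 * |y i| := fun i hi => by
            simp [hz, (mem_sdiff.mp hi).1]
          rw [sum_congr rfl e4]
          refine le_of_sq_le_sq ?_ (by positivity)
          refine (sum_mul_sq_le_sq_mul_sq _ _ _).trans ?_
          simp only [one_pow, sum_const, nsmul_eq_mul, mul_one, sq_abs]
          rw [mul_pow, hs2]
          exact mul_le_mul_of_nonneg_left hsD (by positivity)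
        have e5 : ∑ i ∈ B \ A, |z i - y i| ≤ (m : ℝ) * t := by
          have e6 : ∀ i ∈ B \ A, |z i - y i| ≤ t := fun i hi => by
            have := hzt i
            simpa [hy, (mem_sdiff.mp hi).1] using this
          refine (sum_le_card_nsmul _ _ _ e6).trans ?_
          rw [nsmul_eq_mul]
          exact mul_le_mul_of_nonneg_right hE' ht0
        have e7 : (m : ℝ) * t ≤ Real.sqrt m * M := by
          calc (m : ℝ) * t = Real.sqrt m * (t * Real.sqrt m) := by
                conv_lhs => rw [← hs2]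
                ring
            _ ≤ _ := mul_le_mul_of_nonneg_left htm hs0
        linarith
    have h6 := abs_le.mp h1
    have h7 := abs_le.mp h5
    rw [h4, abs_le]
    constructor <;> linarith [h2.1, h2.2, h3.1, h3.2, h6.1, h6.2, h7.1, h7.2]

/-- the unit sequences -/
noncomputable def dl (i : ℕ) : ℕ → ℝ := fun j => if j = i then 1 else 0

theorem ev_sum {ι : Type} (l : Lam) (Q : Finset ι) (c : ι → ℝ) (a : ι → ℕ → ℝ) :
    ev l (fun i => ∑ q ∈ Q, c q * a q i) = ∑ q ∈ Q, c q * ev l (a q) := by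
  rcases l with p | ⟨γ, k⟩ <;>
  · simp only [ev, mul_sum]
    rw [sum_comm]
    exact sum_congr rfl fun _ _ => sum_congr rfl fun _ _ => by ring

theorem ev_dl_ch (γ : Chains) (k : ℕ) (q : ℕ × Bool) (hq : q.1 < γ.1) :
    ev (Sum.inr (γ, k)) (dl (ch γ q)) = if q.1 < k then uu q.1 else 0 := by
  simp only [ev, dl]
  have h1 : ∀ r ∈ pos γ k, uu r.1 * (if ch γ r = ch γ q then (1 : ℝ) else 0) =
      if r = q then uu q.1 else 0 := by
    intro r hr
    by_cases h : r = q
    · simp [h]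
    · rw [if_neg h, if_neg (fun e => h (ch_inj γ (mem_pos.mp hr).2 hq e)), mul_zero]
  rw [sum_congr rfl h1, sum_ite_eq']
  simp [mem_pos, hq]

theorem bd_dl (i : ℕ) : Bd (dl i) 1 := by
  rintro (p | ⟨γ, k⟩)
  · refine bd_inl zero_le_one p ?_
    simp only [dl, ite_pow, one_pow, ne_eq, OfNat.ofNat_ne_zero, not_false_eq_true, zero_pow,
      sum_ite_eq']
    split_ifs <;> norm_num
  · by_cases h : ∃ q : ℕ × Bool, q.1 < γ.1 ∧ ch γ q = i
    · obtain ⟨q, hq, rfl⟩ := h
      rw [ev_dl_ch γ k q hq]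
      split_ifs
      · rw [abs_of_pos (uu_pos _)]; exact uu_le_one _
      · simp
    · simp only [ev, dl]
      rw [sum_eq_zero]
      · simp
      · intro q hq
        rw [if_neg (fun e => h ⟨q, (mem_pos.mp hq).2, e⟩), mul_zero]

/-- signed weight -/
noncomputable def sw (q : ℕ × Bool) : ℝ := if q.2 then uu q.1 else -uu q.1

theorem test_bd (γ : Chains) (S : Finset ℕ) (hS : ∀ j ∈ S, j < γ.1) :
    Bd (fun i => ∑ q ∈ S ×ˢ (univ : Finset Bool), sw q * dl (ch γ q) i)
      (Real.sqrt (2 * ∑ j ∈ S, 1 / ((j : ℝ) + 1)) + 2) := by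
  have hQ : ∀ q ∈ S ×ˢ (univ : Finset Bool), q.1 < γ.1 := fun q hq => hS _ (mem_product.mp hq).1
  have hs0 := Real.sqrt_nonneg (2 * ∑ j ∈ S, 1 / ((j : ℝ) + 1))
  intro l
  rw [ev_sum]
  rcases l with p | ⟨γ', k⟩
  · refine le_trans (le_of_sq_le_sq ?_ hs0) (by linarith)
    rw [sq_abs, Real.sq_sqrt (by positivity)]
    refine (sum_mul_sq_le_sq_mul_sq _ _ _).trans ?_
    have h1 : ∑ q ∈ S ×ˢ (univ : Finset Bool), sw q ^ 2 = 2 * ∑ j ∈ S, 1 / ((j : ℝ) + 1) := by
      rw [sum_product, mul_sum]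
      refine sum_congr rfl fun j _ => ?_
      simp only [Fintype.sum_bool, sw, if_true, Bool.false_eq_true, if_false]
      rw [← uu_sq]; ring
    have h2 : ∑ q ∈ S ×ˢ (univ : Finset Bool), ev (Sum.inl p) (dl (ch γ q)) ^ 2 ≤ 1 := by
      refine (sum_ch_le γ _ hQ (fun i => ev (Sum.inl p) (dl i) ^ 2) (fun _ => sq_nonneg _) p.1.1
        ?_).trans (le_trans (le_of_eq ?_) p.2)
      · intro i hi
        simp [ev, dl, hi]
      · refine sum_congr rfl fun i hi => ?_
        simp [ev, dl, hi]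
    rw [h1]
    exact mul_le_of_le_one_right (by positivity) h2
  · by_cases hγ : γ' = γ
    · subst hγ
      rw [sum_congr rfl (fun q hq => by rw [ev_dl_ch γ' k q (hQ q hq)]), sum_product,
        sum_eq_zero]
      · simp only [abs_zero]; linarith
      · intro j _
        simp [sw]
    · refine le_trans ?_ (le_add_of_nonneg_left hs0)
      simp only [ev, mul_sum]
      rw [← sum_product']
      refine (abs_sum_le_sum_abs _ _).trans ?_
      have h1 : ∀ x ∈ (S ×ˢ (univ : Finset Bool)) ×ˢ pos γ' k,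
          |sw x.1 * (uu x.2.1 * dl (ch γ x.1) (ch γ' x.2))| ≤
            if ch γ x.1 = ch γ' x.2 then 1 else 0 := by
        intro x _
        unfold dl
        by_cases e : ch γ x.1 = ch γ' x.2
        · rw [if_pos e, if_pos e.symm, mul_one, abs_mul, abs_of_pos (uu_pos _)]
          have : |sw x.1| ≤ 1 := by
            unfold sw
            split_ifs
            · rw [abs_of_pos (uu_pos _)]; exact uu_le_one _
            · rw [abs_neg, abs_of_pos (uu_pos _)]; exact uu_le_one _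
          exact mul_le_one₀ this (uu_pos _).le (uu_le_one _)
        · rw [if_neg e, if_neg (Ne.symm e)]; simp
      refine (sum_le_sum h1).trans ?_
      rw [← sum_filter, sum_const, nsmul_eq_mul, mul_one]
      exact_mod_cast ch_overlap γ γ' (Ne.symm hγ) _ fun x hx =>
        ⟨hQ _ (mem_product.mp (mem_filter.mp hx).1).1,
          (mem_pos.mp (mem_product.mp (mem_filter.mp hx).1).2).2, (mem_filter.mp hx).2⟩

end Pool.Agent.H29Z.AG
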