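import Pool.Agent.H29Z.AG.Core

/-!
# An almost greedy Markushevich basis of a Banach space that is Schauder in no ordering
-/

set_option autoImplicit false

namespace Pool.Agent.H29Z.AG

open Finset Filter Topology

/-- the ambient space -/
abbrev Z : Type := lp (fun _ : Lam => ℝ) ⊤

/-- evaluation -/
noncomputable def evZ (l : Lam) : Z →L[ℝ] ℝ :=
  LinearMap.mkContinuous
    { toFun := fun z => z l
      map_add' := fun _ _ => rfl
      map_smul' := fun _ _ => rfl } 1
    (fun z => by simpa using lp.norm_apply_le_norm ENNReal.top_ne_zero z l)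

theorem evZ_apply (l : Lam) (z : Z) : evZ l z = z l := rfl

/-- the coordinate functionals as norming functionals -/
def del (i : ℕ) : Lam := Sum.inl ⟨({i}, fun _ => 1), by simp⟩

theorem ev_del (i : ℕ) (a : ℕ → ℝ) : ev (del i) a = a i := by simp [del, ev]

/-- basis vectors in the ambient space -/
noncomputable def EZ (i : ℕ) : Z :=
  ⟨fun l => ev l (dl i), memℓp_infty ⟨1, by
    rintro _ ⟨l, rfl⟩
    exact bd_dl i l⟩⟩

/-- the linear functional determined by the coordinates -/
noncomputable def evC : Lam → (Z →L[ℝ] ℝ)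
  | Sum.inl p => ∑ i ∈ p.1.1, p.1.2 i • evZ (del i)
  | Sum.inr c => ∑ q ∈ pos c.1 c.2, uu q.1 • evZ (del (ch c.1 q))

theorem evC_apply (l : Lam) (z : Z) : evC l z = ev l (fun i => evZ (del i) z) := by
  rcases l with p | c <;> simp [evC, ev]

/-- the space -/
noncomputable abbrev XS : Submodule ℝ Z := (Submodule.span ℝ (Set.range EZ)).topologicalClosure

theorem XS_prop (x : XS) (l : Lam) : evZ l x.1 = ev l (fun i => evZ (del i) x.1) := by
  rw [← evC_apply]
  have h : XS ≤ LinearMap.ker (evZ l - evC l).toLinearMap := by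
    refine Submodule.topologicalClosure_minimal _ ?_ (ContinuousLinearMap.isClosed_ker _)
    rw [Submodule.span_le]
    rintro _ ⟨i, rfl⟩
    have : evZ l (EZ i) = evC l (EZ i) := by
      rw [evC_apply]
      change ev l (dl i) = ev l (fun j => ev (del j) (dl i))
      simp only [ev_del]
    simpa [sub_eq_zero] using this
  have := h x.2
  simpa [sub_eq_zero] using this

/-- the basis -/
noncomputable def ee (i : ℕ) : XS :=
  ⟨EZ i, Submodule.le_topologicalClosure _ (Submodule.subset_span ⟨i, rfl⟩)⟩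

/-- the coordinate functionals -/
noncomputable def ee' (i : ℕ) : XS →L[ℝ] ℝ := (evZ (del i)).comp XS.subtypeL

theorem ee'_ee (i j : ℕ) : ee' i (ee j) = if i = j then 1 else 0 := by
  change ev (del i) (dl j) = _
  rw [ev_del, dl]

theorem bd_norm (x : XS) : Bd (fun i => ee' i x) ‖x‖ := fun l => by
  have h := XS_prop x l
  change |ev l (fun i => evZ (del i) x.1)| ≤ ‖x.1‖
  rw [← h]
  exact lp.norm_apply_le_norm ENNReal.top_ne_zero x.1 l

theorem norm_le (x : XS) (M : ℝ) (h : Bd (fun i => ee' i x) M) : ‖x‖ ≤ M := by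
  have hM : 0 ≤ M := (abs_nonneg _).trans (h (del 0))
  change ‖x.1‖ ≤ M
  refine lp.norm_le_of_forall_le hM fun l => ?_
  rw [← evZ_apply, XS_prop x l]
  exact h l

theorem dense_span : Dense ((Submodule.span ℝ (Set.range ee) : Submodule ℝ XS) : Set XS) := by
  intro x
  rw [Topology.IsEmbedding.subtypeVal.closure_eq_preimage_closure_image]
  have h : Subtype.val '' ((Submodule.span ℝ (Set.range ee) : Submodule ℝ XS) : Set XS) =
      (Submodule.span ℝ (Set.range EZ) : Set Z) := by
    have h1 := Submodule.map_span XS.subtype (Set.range ee)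
    have h2 : XS.subtype '' Set.range ee = Set.range EZ := by
      rw [← Set.range_comp]; rfl
    rw [h2] at h1
    rw [← h1]; rfl
  rw [Set.mem_preimage, h]
  exact x.2

theorem coef_sub (x : XS) (A : Finset ℕ) :
    (fun i => ee' i (x - ∑ j ∈ A, ee' j x • ee j)) = fun i => if i ∈ A then 0 else ee' i x := by
  funext i
  simp only [map_sub, map_sum, map_smul, ee'_ee, smul_eq_mul, mul_ite, mul_one, mul_zero,
    sum_ite_eq]
  split_ifs <;> simp

theorem almost_greedy (x : XS) (A B : Finset ℕ)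
    (hA : ∀ i ∈ A, ∀ j : ℕ, j ∉ A → ‖ee' j x‖ ≤ ‖ee' i x‖) (hB : B.card ≤ A.card) :
    ‖x - ∑ i ∈ A, ee' i x • ee i‖ ≤ 8 * ‖x - ∑ i ∈ B, ee' i x • ee i‖ := by
  apply norm_le
  rw [coef_sub]
  refine greedy_bd _ A B hA hB _ ?_
  rw [← coef_sub]
  exact bd_norm _

theorem not_schauder (π : Equiv.Perm ℕ) : ¬ ∀ x : XS,
    Tendsto (fun n : ℕ => ∑ k ∈ range n, ee' (π k) x • ee (π k)) atTop (𝓝 x) := by
  intro h
  let S : ℕ → XS →L[ℝ] XS := fun n => ∑ k ∈ range n, (ee' (π k)).smulRight (ee (π k))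
  have hS : ∀ n x, S n x = ∑ k ∈ range n, ee' (π k) x • ee (π k) := fun n x => by
    simp [S]
  obtain ⟨C, hC⟩ := banach_steinhaus (g := S) fun x => by
    obtain ⟨C, hC⟩ := (h x).norm.bddAbove_range
    exact ⟨C, fun n => by rw [hS]; exact hC ⟨n, rfl⟩⟩
  have hC0 : 0 ≤ C := (ContinuousLinearMap.opNorm_nonneg (S 0)).trans (hC 0)
  obtain ⟨n, γ, hR⟩ := exists_split π (8 * C ^ 2 + 4 * C + 1)
  set T := (range γ.1).filter
    (fun j => π.symm (ch γ (j, true)) < n ∧ ¬ π.symm (ch γ (j, false)) < n) with hT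
  set s := ∑ j ∈ T, 1 / ((j : ℝ) + 1) with hs
  have hTl : ∀ j ∈ T, j < γ.1 := fun j hj => mem_range.mp (mem_filter.mp hj).1
  let f : XS := ∑ q ∈ T ×ˢ (univ : Finset Bool), sw q • ee (ch γ q)
  have hf : (fun i => ee' i f) =
      fun i => ∑ q ∈ T ×ˢ (univ : Finset Bool), sw q * dl (ch γ q) i := by
    funext i
    simp only [f, map_sum, map_smul, ee'_ee, smul_eq_mul, dl]
  have h1 : ‖f‖ ≤ Real.sqrt (2 * s) + 2 := by
    apply norm_le
    rw [hf]
    exact test_bd γ T hTl
  have hSe : ∀ i, S n (ee i) = if π.symm i < n then ee i else 0 := by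
    intro i
    rw [hS]
    have : ∀ k ∈ range n, ee' (π k) (ee i) • ee (π k) = if k = π.symm i then ee i else 0 := by
      intro k _
      rw [ee'_ee]
      by_cases e : k = π.symm i
      · subst e; simp
      · rw [if_neg e, if_neg (fun e' => e (by rw [← e']; simp)), zero_smul]
    rw [sum_congr rfl this, sum_ite_eq']
    simp
  have h2 : S n f = ∑ j ∈ T, uu j • ee (ch γ (j, true)) := by
    simp only [f, map_sum, map_smul, hSe]
    rw [sum_product]
    refine sum_congr rfl fun j hj => ?_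
    obtain ⟨a1, a2⟩ := (mem_filter.mp hj).2
    simp [sw, a1, a2]
  have h3 : s ≤ ‖S n f‖ := by
    have h4 := bd_norm (S n f) (Sum.inr (γ, γ.1))
    have h5 : (fun i => ee' i (S n f)) = fun i => ∑ j ∈ T, uu j * dl (ch γ (j, true)) i := by
      funext i
      simp only [h2, map_sum, map_smul, ee'_ee, smul_eq_mul, dl]
    rw [h5, ev_sum] at h4
    refine le_trans (le_of_eq ?_) ((le_abs_self _).trans h4)
    refine sum_congr rfl fun j hj => ?_
    rw [ev_dl_ch γ γ.1 (j, true) (hTl j hj), if_pos (hTl j hj), uu_sq]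
  have h6 : ‖S n f‖ ≤ C * (Real.sqrt (2 * s) + 2) :=
    ((S n).le_opNorm f).trans (mul_le_mul (hC n) h1 (norm_nonneg _) hC0)
  have hs0 : 0 ≤ 2 * s := by nlinarith [sq_nonneg C]
  have h7 := Real.sq_sqrt hs0
  nlinarith [sq_nonneg (Real.sqrt (2 * s) - 2 * C), sq_nonneg C]

end Pool.Agent.H29Z.AG
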